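import Pool.Agent.Helper499.WBA

open Filter Topology

namespace Pool.Agent.Results.MP_906480_an.NoBasis

/-- `x` is a basis of the Banach space `E`: every vector is the norm limit of the partial sums
`∑_{n < N} a n • x n` for exactly one sequence of scalars `a`. -/
def IsBasis (𝕜 E : Type) [RCLike 𝕜] [NormedAddCommGroup E] [NormedSpace 𝕜 E] (x : ℕ → E) : Prop :=
  ∀ y : E, ∃! a : ℕ → 𝕜, Tendsto (fun N => ∑ n ∈ Finset.range N, a n • x n) atTop (𝓝 y)

/-- `h` is a weak star basis of the dual of `E`: every functional is the weak star limit of the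
partial sums `∑_{n < N} a n • h n` for exactly one sequence of scalars `a`. -/
def IsWeakStarBasis (𝕜 E : Type) [RCLike 𝕜] [NormedAddCommGroup E] [NormedSpace 𝕜 E]
    (h : ℕ → WeakDual 𝕜 E) : Prop :=
  ∀ f : WeakDual 𝕜 E, ∃! a : ℕ → 𝕜,
    Tendsto (fun N => ∑ n ∈ Finset.range N, a n • h n) atTop (𝓝 f)

section
variable {𝕜 E : Type} [RCLike 𝕜] [NormedAddCommGroup E] [NormedSpace 𝕜 E]

/-- Sanity check: weak star convergence of the partial sums is pointwise convergence. -/
theorem tendsto_iff (h : ℕ → WeakDual 𝕜 E) (a : ℕ → 𝕜) (f : WeakDual 𝕜 E) :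
    Tendsto (fun N => ∑ n ∈ Finset.range N, a n • h n) atTop (𝓝 f) ↔
      ∀ x : E, Tendsto (fun N => ∑ n ∈ Finset.range N, a n * h n x) atTop (𝓝 (f x)) := by
  have h1 : ∀ N (x : E), (∑ n ∈ Finset.range N, a n • h n : WeakDual 𝕜 E) x =
      ∑ n ∈ Finset.range N, a n * h n x := by
    intro N x
    induction N with
    | zero =>
      rw [Finset.range_zero, Finset.sum_empty, Finset.sum_empty]
      rfl
    | succ N ih =>
      rw [Finset.sum_range_succ, Finset.sum_range_succ, ← ih]
      rfl
  rw [tendsto_iff_forall_eval_tendsto_topDualPairing]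
  simp only [topDualPairing_apply]
  simp only [← h1]
  rfl

/-- A Banach space with a basis is separable. -/
theorem separable_of_basis (x : ℕ → E) (hx : IsBasis 𝕜 E x) : TopologicalSpace.SeparableSpace E := by
  rw [← TopologicalSpace.isSeparable_univ_iff]
  have h1 : TopologicalSpace.IsSeparable (Submodule.span 𝕜 (Set.range x) : Set E) :=
    ((Set.countable_range x).isSeparable).span
  refine h1.closure.mono fun y _ => ?_
  obtain ⟨a, ha, _⟩ := hx y
  refine mem_closure_of_tendsto ha (Eventually.of_forall fun N => ?_)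
  exact Submodule.sum_mem _ fun n _ => Submodule.smul_mem _ _ (Submodule.subset_span ⟨n, rfl⟩)

end

/-- Over the real and over the complex scalars there is a Banach space `E` such that `E*` has a
weak star basis but `E` has no basis. -/
theorem result (𝕜 : Type) [RCLike 𝕜] :
    ∃ (E : Type) (_ : NormedAddCommGroup E) (_ : NormedSpace 𝕜 E) (_ : CompleteSpace E),
      (∃ h : ℕ → WeakDual 𝕜 E, IsWeakStarBasis 𝕜 E h) ∧ ¬ ∃ x : ℕ → E, IsBasis 𝕜 E x := by
  obtain ⟨E, i1, i2, i3, hsep, h, hh⟩ := Pool.Agent.Helper499.WB.main 𝕜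
  refine ⟨E, i1, i2, i3, ⟨fun n => StrongDual.toWeakDual (h n), fun f => ?_⟩, ?_⟩
  · obtain ⟨a, ha, huniq⟩ := hh (WeakDual.toStrongDual f)
    refine ⟨a, (tendsto_iff _ a f).2 ha, fun a' ha' => huniq a' ?_⟩
    exact (tendsto_iff _ a' f).1 ha'
  · rintro ⟨x, hx⟩
    exact hsep (separable_of_basis x hx)

end Pool.Agent.Results.MP_906480_an.NoBasis
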